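import Pool.Agent.Q74.BT.Stm3
import Pool.Agent.Q195.BT.Up

/-!
# Project BT, part 3, job MeanUp: the upper bound of the mean

Follows the proof of `Pool.Agent.Q195.BT.up`.
-/

set_option autoImplicit false
set_option linter.unusedVariables false

namespace Pool.Agent.Q261.BT

open Finset Pool.Agent.Q74.BT Pool.Agent.Q195.BT
open Pool.Agent.Q158.Pair (T)
open Pool.Agent.Q74.AR (oc oc_per oc_le)
open Pool.Agent.Q74.KP (EE Erf Pe EE_mono EE_add EE_mul EE_const EE_nonneg)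
open Pool.Agent.Q74.BL (nx ww nx_add nx_zero EE_split)
open Pool.Agent.H395R2.G3 (rr FF)
open scoped Classical

/-- offsets of a set of forms -/
theorem offsets' {V : Finset (ℕ × ℤ)} {θ η H : ℝ} (hη : 0 < η)
    (h : ∀ z ∈ V, (1 + |ww θ z|) ^ η ≤ H) : ∀ z ∈ V, ∀ z' ∈ V, z.1 ≤ z'.1 →
    |(z'.2 : ℝ) - 3 ^ (z'.1 - z.1) * z.2| ≤ 3 ^ (z'.1 - z.1) * (2 * H ^ (1 / η)) := by
  have key : ∀ z ∈ V, |ww θ z| ≤ H ^ (1 / η) := by
    intro z hz
    have h2 : 1 + |ww θ z| ≤ H ^ (1 / η) := by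
      have h3 : ((1 + |ww θ z|) ^ η) ^ (1 / η) ≤ H ^ (1 / η) :=
        Real.rpow_le_rpow (Real.rpow_nonneg (by positivity) _) (h z hz) (by positivity)
      rwa [← Real.rpow_mul (by positivity), mul_one_div_cancel hη.ne', Real.rpow_one] at h3
    linarith
  intro z hz z' hz' hle
  have e1 : (z'.2 : ℝ) - 3 ^ (z'.1 - z.1) * z.2 = ww θ z' - 3 ^ (z'.1 - z.1) * ww θ z := by
    unfold ww
    have : (3 : ℝ) ^ z'.1 = 3 ^ (z'.1 - z.1) * 3 ^ z.1 := by
      rw [← pow_add]; congr 1; omega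
    rw [this]
    ring
  rw [e1]
  have hp : (1 : ℝ) ≤ 3 ^ (z'.1 - z.1) := one_le_pow₀ (by norm_num)
  have hY := key z hz
  have hY' := key z' hz'
  have hY0 : 0 ≤ H ^ (1 / η) := (abs_nonneg _).trans hY
  calc |ww θ z' - 3 ^ (z'.1 - z.1) * ww θ z| ≤ |ww θ z'| + |3 ^ (z'.1 - z.1) * ww θ z| :=
        abs_sub _ _
    _ = |ww θ z'| + 3 ^ (z'.1 - z.1) * |ww θ z| := by
        rw [abs_mul, abs_of_pos (by positivity : (0 : ℝ) < 3 ^ (z'.1 - z.1))]
    _ ≤ H ^ (1 / η) + 3 ^ (z'.1 - z.1) * H ^ (1 / η) :=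
        add_le_add hY' (mul_le_mul_of_nonneg_left hY (by positivity))
    _ ≤ 3 ^ (z'.1 - z.1) * (2 * H ^ (1 / η)) := by nlinarith

/-- the forms far away -/
theorem card_far (V : Finset (ℕ × ℤ)) (θ η : ℝ) {H : ℝ} (hH : 0 ≤ H) :
    H * ((V.filter (fun z => ¬ (1 + |ww θ z|) ^ η ≤ H)).card : ℝ) ≤ QQ η V θ := by
  unfold QQ
  calc H * ((V.filter (fun z => ¬ (1 + |ww θ z|) ^ η ≤ H)).card : ℝ)
      = ∑ z ∈ V.filter (fun z => ¬ (1 + |ww θ z|) ^ η ≤ H), H := by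
        rw [sum_const, nsmul_eq_mul, mul_comm]
    _ ≤ ∑ z ∈ V.filter (fun z => ¬ (1 + |ww θ z|) ^ η ≤ H), (1 + |ww θ z|) ^ η :=
        sum_le_sum fun z hz => (not_le.1 (mem_filter.1 hz).2).le
    _ ≤ ∑ z ∈ V, (1 + |ww θ z|) ^ η :=
        sum_le_sum_of_subset_of_nonneg (filter_subset _ _) fun _ _ _ =>
          Real.rpow_nonneg (by positivity) _

/-- splitting of an image -/
theorem card_split (V : Finset (ℕ × ℤ)) (p : ℕ × ℤ → Prop) (f : ℕ × ℤ → ℕ × ℤ) :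
    ((V.image f).card : ℝ) ≤ (((V.filter p).image f).card : ℝ) + ((V.filter fun z => ¬ p z).card : ℝ) := by
  have h1 : V.image f = (V.filter p).image f ∪ (V.filter fun z => ¬ p z).image f := by
    rw [← image_union, filter_union_filter_not_eq]
  rw [h1]
  have h2 := card_union_le ((V.filter p).image f) ((V.filter fun z => ¬ p z).image f)
  have h3 : ((V.filter fun z => ¬ p z).image f).card ≤ (V.filter fun z => ¬ p z).card := card_image_le
  exact_mod_cast h2.trans (Nat.add_le_add_left h3 _)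

/-- levels of a block -/
theorem levels' {L s t₂ : ℕ} {x : ℤ} {top bot Gx : ℝ} (htb : 0 ≤ top - bot)
    (h3 : ∀ j : ℕ, j < L → |(oc t₂ (x + j) : ℝ) - oc s (x + j) - ((t₂ : ℝ) - s) / 2| ≤ Gx) :
    ∀ z ∈ VV L t₂ x, ∀ z' ∈ VV L t₂ x, (z'.1 : ℝ) - z.1 ≤ (top - bot) +
      s * Set.indicator {x : ℤ | (∃ z ∈ VV L s x, top ≤ z.1) ∨ (∃ z ∈ VV L s x, (z.1 : ℝ) < bot)} 1 x +
      2 * Gx := by
  intro z hz z' hz'
  unfold VV at hz hz'
  obtain ⟨j, hj, rfl⟩ := mem_image.1 hz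
  obtain ⟨j', hj', rfl⟩ := mem_image.1 hz'
  rw [nx_fst, nx_fst]
  have a3 := h3 j (mem_range.1 hj)
  have b3 := h3 j' (mem_range.1 hj')
  have a4 := (abs_le.1 a3).1
  have b4 := (abs_le.1 b3).2
  have hm : ∀ i ∈ range L, nx s x (0, (i : ℤ)) ∈ VV L s x := fun i hi => by
    unfold VV
    exact mem_image.2 ⟨i, hi, rfl⟩
  by_cases hx : (∃ z ∈ VV L s x, top ≤ z.1) ∨ (∃ z ∈ VV L s x, (z.1 : ℝ) < bot)
  · rw [ind_one (P := fun x => (∃ z ∈ VV L s x, top ≤ z.1) ∨ (∃ z ∈ VV L s x, (z.1 : ℝ) < bot)) hx,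
      mul_one]
    have c1 : (oc s (x + j') : ℝ) ≤ s := by exact_mod_cast oc_le s (x + j')
    have c2 : (0 : ℝ) ≤ (oc s (x + j) : ℝ) := Nat.cast_nonneg _
    linarith
  · rw [ind_zero (P := fun x => (∃ z ∈ VV L s x, top ≤ z.1) ∨ (∃ z ∈ VV L s x, (z.1 : ℝ) < bot)) hx,
      mul_zero]
    push Not at hx
    have c1 := hx.1 _ (hm j' hj')
    have c2 := hx.2 _ (hm j hj)
    rw [nx_fst] at c1 c2
    linarith

/-- **BT3-MeanUp** -/
theorem meanUp (h1 : S_Kap) (h2 : S_Pot) (h3 : S_Mean) (h4 : S_Top) (h5 : S_Bot) (h6 : S_WalkE)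
    (h7 : S_MeanPin) : S_MeanUp := by
  intro γ hγ κ M ε hκ0 hM0 hε
  have hγ0 : 0 < γ := by linarith [hγ.1]
  have hγ1 : 1 ≤ γ := by linarith [hγ.1]
  have hγ42 : γ ≤ 42 := by linarith [hγ.2.1]
  obtain ⟨hg0, hg1⟩ := rr_facts hγ
  have hl2 : 0 < Real.log 2 := Real.log_pos (by norm_num)
  set g := rr γ with hg
  set b : ℝ := 1 / (2 * Real.log 2) with hb
  have hb0 : 0 < b := by positivity
  set D : ℝ := DD γ with hDdef
  have hD : D = γ * (g - 1 / 2) + b := rfl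
  have hD0 : 0 < D := by
    rw [hD]
    have : 0 ≤ γ * (g - 1 / 2) := mul_nonneg hγ0.le (by linarith)
    linarith
  have hden : 0 < 2 + 2 * (D + 300) * M := by positivity
  set e : ℝ := min (1 / 2) (ε / (2 + 2 * (D + 300) * M)) with he'
  have he : 0 < e := lt_min (by norm_num) (by positivity)
  have heh : e ≤ 1 / 2 := min_le_left _ _
  have hee : (2 + 2 * (D + 300) * M) * e ≤ ε := by
    have : e ≤ ε / (2 + 2 * (D + 300) * M) := min_le_right _ _
    rw [le_div_iff₀ hden] at this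
    linarith
  obtain ⟨η, q, hη0, hη1, hq1, hq2, _⟩ := h1 γ hγ 1 one_pos
  have hq0 : 0 < q := by
    have : 0 < la η := by unfold la; positivity
    linarith
  have hlq : 0 < -Real.log q := by
    have := Real.log_neg hq0 hq2
    linarith
  obtain ⟨K, hK, hPot⟩ := h2 η q hη0 hη1 hq1 hq2
  obtain ⟨Cm, hCm, hMean⟩ := h3 γ hγ e he
  obtain ⟨c, hc, hTop⟩ := h4 γ hγ e he
  obtain ⟨Lb, hBot⟩ := h5 (γ + 2) e (by linarith) he
  obtain ⟨δw, hδw, Lw, hWalk⟩ := h6 γ hγ e he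
  set δ : ℝ := min δw (e / M ^ 2) with hδdef
  have hδ : 0 < δ := lt_min hδw (by positivity)
  have hδ1 : δ ≤ δw := min_le_left _ _
  have hδ2 : δ * M ^ 2 ≤ e := by
    have : δ ≤ e / M ^ 2 := min_le_right _ _
    rwa [le_div_iff₀ (by positivity)] at this
  have hsδ : 0 < √δ := Real.sqrt_pos.2 hδ
  set k : ℝ := 1 + 2 * Cm / √δ with hk
  have hk0 : 0 < k := by positivity
  obtain ⟨ρ, hρ, r₀, hPin⟩ := h7 (e / k) (by positivity)
  set H₀ : ℝ := (K + 1) / e with hH₀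
  have hH0 : 0 < H₀ := by positivity
  obtain ⟨t₁, hgrow⟩ := growth hη0 hρ hH0
  set Λ : ℝ := max (Real.log Lb) (max (Real.log Lw) (max (1 / e) (max (-Real.log e / c)
    (max ((γ + 3) / δ) (4 / (δ * -Real.log q)))))) with hΛ
  have L1 : Real.log Lb ≤ Λ := le_max_left _ _
  have L2 : Real.log Lw ≤ Λ := (le_max_left _ _).trans (le_max_right _ _)
  have L3 : 1 / e ≤ Λ := (le_max_left _ _).trans ((le_max_right _ _).trans (le_max_right _ _))
  have L4 : -Real.log e / c ≤ Λ := (le_max_left _ _).trans ((le_max_right _ _).trans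
    ((le_max_right _ _).trans (le_max_right _ _)))
  have L5 : (γ + 3) / δ ≤ Λ := (le_max_left _ _).trans ((le_max_right _ _).trans
    ((le_max_right _ _).trans ((le_max_right _ _).trans (le_max_right _ _))))
  have L6 : 4 / (δ * -Real.log q) ≤ Λ := (le_max_right _ _).trans ((le_max_right _ _).trans
    ((le_max_right _ _).trans ((le_max_right _ _).trans (le_max_right _ _))))
  obtain ⟨N₁, hN₁⟩ := exists_nat_ge (Λ / κ)
  refine ⟨max (N₁ ^ 2) (max t₁ (max (2 * r₀) 1)), fun t ht L hL hκℓ hℓM => ?_⟩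
  have ht1 : N₁ ^ 2 ≤ t := (le_max_left _ _).trans ht
  have ht2 : t₁ ≤ t := ((le_max_left _ _).trans (le_max_right _ _)).trans ht
  have ht3 : 2 * r₀ ≤ t :=
    ((le_max_left _ _).trans ((le_max_right _ _).trans (le_max_right _ _))).trans ht
  have ht4 : 1 ≤ t :=
    ((le_max_right _ _).trans ((le_max_right _ _).trans (le_max_right _ _))).trans ht
  have htr : (1 : ℝ) ≤ t := by exact_mod_cast ht4
  have ht0 : (0 : ℝ) < t := by linarith
  have hst0 : 0 < √(t : ℝ) := Real.sqrt_pos.2 ht0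
  have hNt : (N₁ : ℝ) ≤ √t := by
    apply Real.le_sqrt_of_sq_le
    exact_mod_cast ht1
  set ℓ : ℝ := Real.log L with hℓ
  have hℓ0 : 0 ≤ ℓ := Real.log_nonneg (by exact_mod_cast hL)
  -- main case
  have hℓΛ : Λ ≤ ℓ := by
    have a1 : Λ ≤ N₁ * κ := by rwa [div_le_iff₀ hκ0] at hN₁
    have a2 : N₁ * κ ≤ √t * κ := mul_le_mul_of_nonneg_right hNt hκ0.le
    linarith
  have hLb : Lb ≤ L := le_of_log hL (L1.trans hℓΛ)
  have hLw : Lw ≤ L := le_of_log hL (L2.trans hℓΛ)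
  have heℓ : 1 ≤ e * ℓ := by
    have := L3.trans hℓΛ
    rw [div_le_iff₀ he] at this
    linarith
  have heℓ2 : e * ℓ ≤ 1 / 2 * ℓ := mul_le_mul_of_nonneg_right heh hℓ0
  have hℓ1 : 2 ≤ ℓ := by linarith
  have hℓp : 0 < ℓ := by linarith
  have hL2 : 2 ≤ L := by
    rcases Nat.lt_or_ge L 2 with h | h
    · exfalso
      have : L = 1 := by omega
      rw [hℓ, this, Nat.cast_one, Real.log_one] at hℓp
      exact lt_irrefl _ hℓp
    · exact h
  have hγℓ : 1 * ℓ ≤ γ * ℓ := mul_le_mul_of_nonneg_right hγ1 hℓ0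
  have hδℓ : (γ + 3) * ℓ ≤ δ * ℓ ^ 2 := by
    have h8 := L5.trans hℓΛ
    rw [div_le_iff₀ hδ] at h8
    calc (γ + 3) * ℓ ≤ (ℓ * δ) * ℓ := mul_le_mul_of_nonneg_right h8 hℓ0
      _ = δ * ℓ ^ 2 := by ring
  have hqℓ : 4 * ℓ ≤ δ * ℓ ^ 2 * -Real.log q := by
    have h8 := L6.trans hℓΛ
    rw [div_le_iff₀ (mul_pos hδ hlq)] at h8
    calc 4 * ℓ ≤ (ℓ * (δ * -Real.log q)) * ℓ := mul_le_mul_of_nonneg_right h8 hℓ0
      _ = δ * ℓ ^ 2 * -Real.log q := by ring
  set s : ℕ := ⌈(γ + e) * ℓ⌉₊ with hs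
  set t₂ : ℕ := ⌊δ * ℓ ^ 2⌋₊ with ht₂
  have hs1 : (γ + e) * ℓ ≤ s := Nat.le_ceil _
  have hs2 : (s : ℝ) ≤ (γ + e) * ℓ + 1 := (Nat.ceil_lt_add_one (by positivity)).le
  have ht2a : (t₂ : ℝ) ≤ δ * ℓ ^ 2 := Nat.floor_le (by positivity)
  have ht2b : δ * ℓ ^ 2 < t₂ + 1 := Nat.lt_floor_add_one _
  have hst : s ≤ t₂ := by
    have : (s : ℝ) ≤ t₂ := by linarith
    exact_mod_cast this
  have ht2c : δ * ℓ ^ 2 / 2 ≤ t₂ := by linarith
  have ht2d : (t₂ : ℝ) ≤ e * t := by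
    have a1 : ℓ ^ 2 ≤ M ^ 2 * t := by
      calc ℓ ^ 2 ≤ (M * √t) ^ 2 := pow_le_pow_left₀ hℓ0 hℓM 2
        _ = M ^ 2 * t := by rw [mul_pow, Real.sq_sqrt ht0.le]
    calc (t₂ : ℝ) ≤ δ * ℓ ^ 2 := ht2a
      _ ≤ δ * (M ^ 2 * t) := mul_le_mul_of_nonneg_left a1 hδ.le
      _ = δ * M ^ 2 * t := by ring
      _ ≤ e * t := mul_le_mul_of_nonneg_right hδ2 ht0.le
  have het : e * t ≤ 1 / 2 * t := mul_le_mul_of_nonneg_right heh ht0.le
  have ht2t : t₂ ≤ t := by
    have : (t₂ : ℝ) ≤ t := by linarith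
    exact_mod_cast this
  obtain ⟨r, hr⟩ := Nat.exists_eq_add_of_le ht2t
  have hrr : (r : ℝ) = t - t₂ := by
    rw [hr]
    push_cast
    ring
  have hr1 : (1 - e) * t ≤ r := by rw [hrr]; linarith
  have hr2 : (t : ℝ) / 2 ≤ r := by
    have : (1 / 2 : ℝ) * t ≤ (1 - e) * t := mul_le_mul_of_nonneg_right (by linarith) ht0.le
    linarith
  have hr0' : (0 : ℝ) < r := by linarith
  have hsr0 : 0 < √(r : ℝ) := Real.sqrt_pos.2 hr0'
  have hrr0 : r₀ ≤ r := by
    have h8 : (2 * r₀ : ℝ) ≤ t := by exact_mod_cast ht3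
    have : (r₀ : ℝ) ≤ r := by linarith
    exact_mod_cast this
  have ht₂0 : (0 : ℝ) < t₂ := by
    have : 0 < δ * ℓ ^ 2 := by positivity
    linarith
  set H : ℝ := H₀ * (1 + t₂) with hH
  have hHpos : 0 < H := by positivity
  have hsq : ℓ / √t₂ ≤ 2 / √δ := by
    rw [div_le_div_iff₀ (Real.sqrt_pos.2 ht₂0) hsδ]
    have h12 : ℓ * √δ = √(δ * ℓ ^ 2) := by
      rw [Real.sqrt_mul hδ.le, Real.sqrt_sq hℓ0, mul_comm]
    rw [h12]
    have h13 : √(δ * ℓ ^ 2) ≤ √(2 ^ 2 * (t₂ : ℝ)) := Real.sqrt_le_sqrt (by linarith)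
    have h14 : √(2 ^ 2 * (t₂ : ℝ)) = 2 * √t₂ := by
      rw [Real.sqrt_mul (by norm_num : (0 : ℝ) ≤ 2 ^ 2), Real.sqrt_sq (by norm_num : (0 : ℝ) ≤ 2)]
    rw [h14] at h13
    exact h13
  -- the events
  set top : ℝ := (g + e) * s with htop
  set bot : ℝ := s / 2 - (b + e) * ℓ with hbot
  set P1 : ℤ → Prop := fun x => ∃ z ∈ VV L s x, top ≤ z.1 with hP1
  set P2 : ℤ → Prop := fun x => ∃ z ∈ VV L s x, (z.1 : ℝ) < bot with hP2
  have p1 : PR t₂ P1 ≤ e := by
    rw [PR_per hst (fun x j => lev_per L s (fun a => top ≤ (a : ℝ)) x j)]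
    have h8 : γ * ℓ ≤ s := by linarith
    refine (hTop L s hL h8).trans ?_
    rw [← Real.le_log_iff_exp_le he]
    have h9 := L4.trans hℓΛ
    rw [div_le_iff₀ hc] at h9
    have h10 : ℓ ≤ s := by linarith
    have h11 : c * ℓ ≤ c * s := mul_le_mul_of_nonneg_left h10 hc.le
    linarith
  have p2 : PR t₂ P2 ≤ e := by
    rw [PR_per hst (fun x j => lev_per L s (fun a => (a : ℝ) < bot) x j)]
    have h8 : (s : ℝ) ≤ (γ + 2) * ℓ := by linarith
    exact hBot L hLb s h8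
  have p12 : EE t₂ (fun x => Set.indicator {x : ℤ | P1 x ∨ P2 x} 1 x) ≤ 2 * e := by
    have := PR_or t₂ P1 P2
    unfold PR at this
    unfold PR at p1 p2
    linarith
  obtain ⟨G, hG0, hG1, hG2⟩ := hWalk L hLw s t₂ hs1 hst (ht2a.trans
    (mul_le_mul_of_nonneg_right hδ1 (by positivity)))
  -- the mean number of forms at the time `t₂`
  have p4 : EE t₂ (fun x => ((VV L t₂ x).card : ℝ)) ≤ k := by
    have h8 : (γ + e) * ℓ ≤ t₂ := by linarith
    have h9 := hMean L t₂ hL2 h8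
    have h10 : EE t₂ (fun x => ((VV L t₂ x).card : ℝ)) =
        EE t₂ (fun x => ((VV L t₂ x).card : ℝ) - 1) + 1 := by
      have := EE_add t₂ (fun x => ((VV L t₂ x).card : ℝ) - 1) (fun _ => 1)
      rw [EE_const] at this
      rw [← this]
      congr 1
      funext x
      ring
    rw [h10]
    have h11 : Cm * (ℓ / √t₂) ≤ 2 * Cm / √δ := by
      calc Cm * (ℓ / √t₂) ≤ Cm * (2 / √δ) := mul_le_mul_of_nonneg_left hsq hCm.le
        _ = 2 * Cm / √δ := by ring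
    linarith
  have p5 : EE t₂ (fun x => QQ η (VV L t₂ x) (x / 2 ^ t₂)) ≤ (K + 1) * (1 + t₂) := by
    have h8 := hPot 0 (V0 L) (fun z hz => by
      unfold V0 at hz
      obtain ⟨j, _, rfl⟩ := mem_image.1 hz
      exact le_rfl) 0 t₂
    have e1 : (fun x : ℤ => QQ η (VV L t₂ x) (x / 2 ^ t₂)) =
        fun x : ℤ => QQ η ((V0 L).image (nx t₂ x)) ((0 + x) / 2 ^ t₂) := by
      funext x
      rw [VV_eq, zero_add]
    rw [e1]
    refine h8.trans ?_
    have h10 : q ^ t₂ * QQ η (V0 L) 0 ≤ 1 := by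
      have h11 := QQ_V0 hη1.le L
      have hLp : (0 : ℝ) < L := by exact_mod_cast (by omega : 0 < L)
      have h12 : q ^ t₂ * ((L : ℝ) * L) ≤ 1 := by
        rw [← Real.log_nonpos_iff (by positivity), Real.log_mul (by positivity) (by positivity),
          Real.log_mul hLp.ne' hLp.ne', Real.log_pow]
        have h13 : δ * ℓ ^ 2 / 2 * -Real.log q ≤ t₂ * -Real.log q :=
          mul_le_mul_of_nonneg_right ht2c hlq.le
        have h14 : Real.log (L : ℝ) = ℓ := rfl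
        rw [h14]
        linarith
      calc q ^ t₂ * QQ η (V0 L) 0 ≤ q ^ t₂ * ((L : ℝ) * L) :=
            mul_le_mul_of_nonneg_left h11 (by positivity)
        _ ≤ 1 := h12
    push_cast
    linarith
  -- the bound for one residue
  have htb : 0 ≤ top - bot := by
    have : 0 ≤ (g + e - 1 / 2) * s := mul_nonneg (by linarith) (Nat.cast_nonneg s)
    have h8 : 0 ≤ (b + e) * ℓ := by positivity
    rw [htop, hbot]
    linarith
  set R : ℤ → ℝ := fun x => (top - bot) + s * Set.indicator {x : ℤ | P1 x ∨ P2 x} 1 x + 2 * G x with hR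
  have hR0 : ∀ x, 0 ≤ R x := by
    intro x
    have a1 := ind_nonneg (fun x => P1 x ∨ P2 x) x
    have a2 := hG0 x
    have a3 : 0 ≤ (s : ℝ) * Set.indicator {x : ℤ | P1 x ∨ P2 x} 1 x := mul_nonneg (Nat.cast_nonneg s) a1
    rw [hR]
    show 0 ≤ (top - bot) + s * Set.indicator {x : ℤ | P1 x ∨ P2 x} 1 x + 2 * G x
    linarith
  have hone : ∀ x : ℤ, EE r (fun N => ((VV L t (2 ^ t₂ * N + x)).card : ℝ)) ≤
      1 + 2 / √Real.pi * (R x / √r) + e / k * ((VV L t₂ x).card : ℝ) +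
        1 / H * QQ η (VV L t₂ x) (x / 2 ^ t₂) := by
    intro x
    set V := VV L t₂ x with hV
    set p : ℕ × ℤ → Prop := fun z => (1 + |ww (x / 2 ^ t₂) z|) ^ η ≤ H with hp
    have h8 : (fun N : ℤ => ((VV L t (2 ^ t₂ * N + x)).card : ℝ)) =
        fun N => ((V.image (nx r N)).card : ℝ) := by
      funext N
      rw [hr, VV_add]
    rw [h8]
    have h9 : EE r (fun N => ((V.image (nx r N)).card : ℝ)) ≤
        EE r (fun N => (((V.filter p).image (nx r N)).card : ℝ) + ((V.filter fun z => ¬ p z).card : ℝ)) :=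
      EE_mono r fun N => card_split V p (nx r N)
    rw [EE_add, EE_const] at h9
    have h10 := hPin r hrr0 (V.filter p) (by
      intro z hz z' hz' hle
      refine (offsets' (V := V.filter p) (θ := x / 2 ^ t₂) (H := H) hη0 (fun z hz => (mem_filter.1 hz).2)
        z hz z' hz' hle).trans ?_
      refine mul_le_mul_of_nonneg_left ?_ (by positivity)
      have h10 := hgrow t ht2
      have h11 : H ^ (1 / η) ≤ (H₀ * (1 + t)) ^ (1 / η) := by
        apply Real.rpow_le_rpow hHpos.le _ (by positivity)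
        rw [hH]
        have : (t₂ : ℝ) ≤ t := by exact_mod_cast ht2t
        exact mul_le_mul_of_nonneg_left (by linarith) hH0.le
      have h12 : Real.exp (ρ * (t / 2)) ≤ Real.exp (ρ * r) :=
        Real.exp_le_exp.2 (mul_le_mul_of_nonneg_left hr2 hρ.le)
      linarith) (R x) (hR0 x) (fun z hz z' hz' =>
        levels' htb (fun j hj => hG1 x j hj) z (mem_filter.1 hz).1 z' (mem_filter.1 hz').1)
    have h11 : e / k * ((V.filter p).card : ℝ) ≤ e / k * (V.card : ℝ) := by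
      refine mul_le_mul_of_nonneg_left ?_ (by positivity)
      exact_mod_cast card_le_card (filter_subset _ _)
    have h12 : ((V.filter fun z => ¬ p z).card : ℝ) ≤ 1 / H * QQ η V (x / 2 ^ t₂) := by
      have := card_far V (x / 2 ^ t₂) η hHpos.le
      rw [one_div, ← div_eq_inv_mul, le_div_iff₀ hHpos, mul_comm]
      exact this
    linarith
  have hmain : EE t (fun x => ((VV L t x).card : ℝ)) ≤
      1 + 2 / √Real.pi * (EE t₂ R / √r) + e / k * EE t₂ (fun x => ((VV L t₂ x).card : ℝ)) +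
        1 / H * EE t₂ (fun x => QQ η (VV L t₂ x) (x / 2 ^ t₂)) := by
    conv_lhs => rw [hr, EE_split]
    have h8 : EE t₂ (fun x => EE r (fun x' => ((VV L (t₂ + r) (2 ^ t₂ * x' + x)).card : ℝ))) ≤
        EE t₂ (fun x => 1 + 2 / √Real.pi * (R x / √r) + e / k * ((VV L t₂ x).card : ℝ) +
        1 / H * QQ η (VV L t₂ x) (x / 2 ^ t₂)) := by
      refine EE_mono t₂ fun x => ?_
      rw [← hr]
      exact hone x
    refine h8.trans (le_of_eq ?_)
    have h9 : EE t₂ (fun n : ℤ => R n / √(r : ℝ)) = EE t₂ R / √(r : ℝ) := by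
      have h10 : (fun n : ℤ => R n / √(r : ℝ)) = fun n => (1 / √(r : ℝ)) * R n := by
        funext n
        ring
      rw [h10, EE_mul]
      ring
    rw [EE_add, EE_add, EE_add, EE_mul, EE_mul, EE_mul, EE_const, h9]
  have hER : EE t₂ R ≤ (top - bot) + s * (2 * e) + 2 * (e * ℓ) := by
    have h8 : EE t₂ R = (top - bot) + s * EE t₂ (fun x => Set.indicator {x : ℤ | P1 x ∨ P2 x} 1 x) +
        2 * EE t₂ G := by
      rw [hR, EE_add, EE_add, EE_mul, EE_mul, EE_const]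
    rw [h8]
    have h9 : (s : ℝ) * EE t₂ (fun x => Set.indicator {x : ℤ | P1 x ∨ P2 x} 1 x) ≤ s * (2 * e) :=
      mul_le_mul_of_nonneg_left p12 (Nat.cast_nonneg s)
    linarith
  have hseg := segment (g := g) (γ := γ) (e := e) (ℓ := ℓ) (s := s) (b := b) (M := M) (t := t)
    (r := r) (D := D) hg0 hg1 hγ0 hγ42 he heh heℓ (Nat.cast_nonneg s) hs2 hD hD0.le ht0 hℓM hr1
  have hsℓ : (s : ℝ) ≤ 44 * ℓ := by
    have h8 : (γ + e) * ℓ ≤ (42 + 1 / 2) * ℓ := mul_le_mul_of_nonneg_right (by linarith) hℓ0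
    linarith
  have hℓr : ℓ / √r ≤ 2 * M := by
    rw [div_le_iff₀ hsr0]
    have h8 : √t ≤ 2 * √r := by
      apply Real.sqrt_le_iff.2
      refine ⟨by positivity, ?_⟩
      rw [mul_pow, Real.sq_sqrt hr0'.le]
      linarith
    calc ℓ ≤ M * √t := hℓM
      _ ≤ M * (2 * √r) := mul_le_mul_of_nonneg_left h8 hM0.le
      _ = 2 * M * √r := by ring
  have hERr : EE t₂ R / √r ≤ D * ℓ / √t + (D + 300) * M * e := by
    have h8 : EE t₂ R / √r ≤ ((top - bot) + s * (2 * e) + 2 * (e * ℓ)) / √r :=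
      div_le_div_of_nonneg_right hER hsr0.le
    have h9 : ((top - bot) + s * (2 * e) + 2 * (e * ℓ)) / √r =
        ((g + e) * s - s / 2 + (b + e) * ℓ + 2 * (e * ℓ)) / √r + 2 * e * (s / √r) := by
      rw [htop, hbot]
      ring
    have h10 : (s : ℝ) / √r ≤ 44 * (2 * M) := by
      calc (s : ℝ) / √r ≤ 44 * ℓ / √r := div_le_div_of_nonneg_right hsℓ hsr0.le
        _ = 44 * (ℓ / √r) := by ring
        _ ≤ 44 * (2 * M) := mul_le_mul_of_nonneg_left hℓr (by norm_num)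
    have h11 : 2 * e * (s / √r) ≤ 2 * e * (44 * (2 * M)) :=
      mul_le_mul_of_nonneg_left h10 (by positivity)
    have h12 : 0 ≤ M * e := by positivity
    have h13 : (D + 300) * M * e = (D + 100) * M * e + 200 * (M * e) := by ring
    have h14 : 2 * e * (44 * (2 * M)) = 176 * (M * e) := by ring
    linarith
  have hpi : 2 / √Real.pi ≤ 2 := by
    rw [div_le_iff₀ (Real.sqrt_pos.2 Real.pi_pos)]
    have h8 : 1 ≤ √Real.pi := Real.one_le_sqrt.2 (by linarith [Real.pi_gt_three])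
    linarith
  have hpi0 : 0 ≤ 2 / √Real.pi := by positivity
  have a1 : 2 / √Real.pi * (EE t₂ R / √r) ≤ 2 / √Real.pi * (D * ℓ / √t) + 2 * ((D + 300) * M * e) := by
    have h8 : 2 / √Real.pi * (EE t₂ R / √r) ≤ 2 / √Real.pi * (D * ℓ / √t + (D + 300) * M * e) :=
      mul_le_mul_of_nonneg_left hERr hpi0
    have h9 : 2 / √Real.pi * ((D + 300) * M * e) ≤ 2 * ((D + 300) * M * e) :=
      mul_le_mul_of_nonneg_right hpi (by positivity)
    linarith
  have a2 : e / k * EE t₂ (fun x => ((VV L t₂ x).card : ℝ)) ≤ e := by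
    calc e / k * EE t₂ (fun x => ((VV L t₂ x).card : ℝ)) ≤ e / k * k :=
          mul_le_mul_of_nonneg_left p4 (by positivity)
      _ = e := by field_simp
  have a3 : 1 / H * EE t₂ (fun x => QQ η (VV L t₂ x) (x / 2 ^ t₂)) ≤ e := by
    calc 1 / H * EE t₂ (fun x => QQ η (VV L t₂ x) (x / 2 ^ t₂)) ≤ 1 / H * ((K + 1) * (1 + t₂)) :=
          mul_le_mul_of_nonneg_left p5 (by positivity)
      _ = e := by
          rw [hH, hH₀]
          field_simp
  have hfin : 2 * e + 2 * ((D + 300) * M * e) ≤ ε := by linarith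
  linarith

end Pool.Agent.Q261.BT
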